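import Pool.Agent.R489.HB.Stm

/-! Project HB, piece APEX. -/

set_option autoImplicit false

namespace Pool.Agent.R106.HB

open Finset Pool.Agent.R489.HB

variable {W : Type} [DecidableEq W]

theorem mem_edg {Φ : Finset (Finset W)} {e : Finset W} :
    e ∈ edg Φ ↔ ∃ f ∈ Φ, e ⊆ f ∧ e.card = 2 := by
  simp [edg, mem_powersetCard]

theorem mem_fc {Φ : Finset (Finset W)} {e f : Finset W} : f ∈ fc Φ e ↔ f ∈ Φ ∧ e ⊆ f := by
  simp [fc]

theorem pair_sub {f : Finset W} {a b : W} (ha : a ∈ f) (hb : b ∈ f) : {a, b} ⊆ f := by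
  intro x hx
  rw [mem_insert, mem_singleton] at hx
  rcases hx with rfl | rfl <;> assumption

theorem pair_edg {Φ : Finset (Finset W)} {f : Finset W} (hf : f ∈ Φ) {a b : W} (hab : a ≠ b)
    (ha : a ∈ f) (hb : b ∈ f) : {a, b} ∈ edg Φ :=
  mem_edg.2 ⟨f, hf, pair_sub ha hb, card_pair hab⟩

theorem third {f : Finset W} (h : f.card = 3) {a b : W} (hab : a ≠ b) (ha : a ∈ f) (hb : b ∈ f) :
    ∃ c, c ≠ a ∧ c ≠ b ∧ f = {a, b, c} := by
  have hsub : {a, b} ⊆ f := pair_sub ha hb
  have h1 : (f \ {a, b}).card = 1 := by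
    rw [card_sdiff_of_subset hsub, h, card_pair hab]
  obtain ⟨c, hc⟩ := card_eq_one.1 h1
  have hc' : c ∈ f \ {a, b} := by
    rw [hc]
    exact mem_singleton_self c
  rw [mem_sdiff, mem_insert, mem_singleton, not_or] at hc'
  refine ⟨c, hc'.2.1, hc'.2.2, ?_⟩
  ext x
  constructor
  · intro hx
    by_cases h2 : x ∈ ({a, b} : Finset W)
    · rw [mem_insert, mem_singleton] at h2
      rcases h2 with rfl | rfl <;> simp
    · have h3 : x ∈ f \ {a, b} := mem_sdiff.2 ⟨hx, h2⟩
      rw [hc, mem_singleton] at h3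
      subst h3
      simp
  · intro hx
    rw [mem_insert, mem_insert, mem_singleton] at hx
    rcases hx with rfl | rfl | rfl
    · exact ha
    · exact hb
    · exact hc'.1

/-- the other triangle at an edge -/
theorem other {Φ : Finset (Finset W)} (hΦ : IsTri Φ) {f : Finset W} (hf : f ∈ Φ) {a b : W}
    (hab : a ≠ b) (ha : a ∈ f) (hb : b ∈ f) : ∃ g, g ≠ f ∧ fc Φ {a, b} = {f, g} := by
  have h2 := hΦ.two {a, b} (pair_edg hf hab ha hb)
  have hm : f ∈ fc Φ {a, b} := mem_fc.2 ⟨hf, pair_sub ha hb⟩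
  have h1 : ((fc Φ {a, b}).erase f).card = 1 := by
    rw [card_erase_of_mem hm, h2]
  obtain ⟨g, hg⟩ := card_eq_one.1 h1
  refine ⟨g, ?_, ?_⟩
  · have : g ∈ (fc Φ {a, b}).erase f := by
      rw [hg]
      exact mem_singleton_self g
    exact ne_of_mem_erase this
  · rw [← insert_erase hm, hg]

/-- the other triangle does not contain the apex -/
theorem other' {Φ : Finset (Finset W)} (hΦ : IsTri Φ) {a b c : W} (hf : {a, b, c} ∈ Φ)
    (hab : a ≠ b) : ∃ g, c ∉ g ∧ fc Φ {a, b} = {{a, b, c}, g} := by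
  obtain ⟨g, hg, h⟩ := other hΦ hf hab (by simp) (by simp)
  refine ⟨g, fun hc => hg ?_, h⟩
  have hgm : g ∈ fc Φ {a, b} := by
    rw [h]
    simp
  rw [mem_fc] at hgm
  symm
  apply eq_of_subset_of_card_le
  · intro x hx
    rw [mem_insert, mem_insert, mem_singleton] at hx
    rcases hx with rfl | rfl | rfl
    · exact hgm.2 (by simp)
    · exact hgm.2 (by simp)
    · exact hc
  · rw [hΦ.three g hgm.1, hΦ.three _ hf]

/-- the tetrahedron -/
theorem tetra {Φ : Finset (Finset W)} (hΦ : IsTri Φ) {S : Finset W} (hS : S.card = 4)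
    (h : S.powersetCard 3 ⊆ Φ) : vts Φ ⊆ S := by
  have heven : ∀ e ∈ edg Φ, Even (fc (S.powersetCard 3) e).card := by
    intro e he
    obtain ⟨-, -, -, he2⟩ := mem_edg.1 he
    by_cases heS : e ⊆ S
    · have h1 : fc (S.powersetCard 3) e = (S \ e).image (fun x => S.erase x) := by
        ext f
        rw [mem_fc, mem_powersetCard, mem_image]
        constructor
        · rintro ⟨⟨h1, h2⟩, h3⟩
          have h4 : (S \ f).card = 1 := by rw [card_sdiff_of_subset h1, hS, h2]
          obtain ⟨x, hx⟩ := card_eq_one.1 h4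
          have hx' : x ∈ S \ f := by
            rw [hx]
            exact mem_singleton_self x
          rw [mem_sdiff] at hx'
          refine ⟨x, mem_sdiff.2 ⟨hx'.1, fun h5 => hx'.2 (h3 h5)⟩, ?_⟩
          symm
          apply eq_of_subset_of_card_le
          · intro z hz
            exact mem_erase.2 ⟨fun h6 => hx'.2 (h6 ▸ hz), h1 hz⟩
          · rw [card_erase_of_mem hx'.1, hS, h2]
        · rintro ⟨x, hx, rfl⟩
          rw [mem_sdiff] at hx
          refine ⟨⟨erase_subset _ _, by rw [card_erase_of_mem hx.1, hS]⟩, ?_⟩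
          intro z hz
          exact mem_erase.2 ⟨fun h6 => hx.2 (h6 ▸ hz), heS hz⟩
      rw [h1, card_image_of_injOn, card_sdiff_of_subset heS, hS, he2]
      · decide
      · intro x hx z hz hxz
        have hx' := (mem_sdiff.1 (mem_coe.1 hx)).1
        by_contra hne
        have h2 : x ∈ S.erase z := mem_erase.2 ⟨hne, hx'⟩
        simp only at hxz
        rw [← hxz] at h2
        exact (notMem_erase x S) h2
    · have h1 : fc (S.powersetCard 3) e = ∅ := by
        rw [eq_empty_iff_forall_notMem]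
        intro f hf
        rw [mem_fc, mem_powersetCard] at hf
        exact heS (hf.2.trans hf.1.1)
      rw [h1]
      simp
  rcases hΦ.conn _ h heven with h1 | h1
  · exfalso
    have h2 : (S.powersetCard 3).card = 0 := by rw [h1, card_empty]
    rw [card_powersetCard, hS] at h2
    exact absurd h2 (by decide)
  · intro x hx
    rw [vts, ← h1, mem_biUnion] at hx
    obtain ⟨f, hf, hxf⟩ := hx
    exact (mem_powersetCard.1 hf).1 hxf

theorem main {Φ : Finset (Finset W)} (hΦ : IsTri Φ) {u v : W} (huv : u ≠ v) (hG : Good Φ u v)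
    (h5 : 5 ≤ (vts Φ).card) {f : Finset W} (hf : f ∈ Φ) (hv : v ∈ f) (hu : u ∉ f)
    (hf' : insert u (f.erase v) ∈ Φ) : False := by
  have h3 := hΦ.three f hf
  have h2 : (f.erase v).card = 2 := by rw [card_erase_of_mem hv, h3]
  obtain ⟨b, c, hbc, he⟩ := card_eq_two.1 h2
  have hb : b ∈ f.erase v := by rw [he]; simp
  have hc : c ∈ f.erase v := by rw [he]; simp
  rw [mem_erase] at hb hc
  have hbu : b ≠ u := fun h => hu (h ▸ hb.2)
  have hcu : c ≠ u := fun h => hu (h ▸ hc.2)
  rw [he] at hf'
  have hff : f = {v, b, c} := by rw [← he, insert_erase hv]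
  rw [hff] at hf
  have e1 : {u, v, b} ∈ Φ := hG b hbu hb.1 (pair_edg hf' hbu.symm (by simp) (by simp))
    (pair_edg hf hb.1.symm (by simp) (by simp))
  have e2 : {u, v, c} ∈ Φ := hG c hcu hc.1 (pair_edg hf' hcu.symm (by simp) (by simp))
    (pair_edg hf hc.1.symm (by simp) (by simp))
  have hS : ({u, v, b, c} : Finset W).card = 4 := by
    rw [card_insert_of_notMem, card_insert_of_notMem, card_pair hbc]
    · simp [hb.1.symm, hc.1.symm]
    · simp [huv, hbu.symm, hcu.symm]
  have hsub : ({u, v, b, c} : Finset W).powersetCard 3 ⊆ Φ := by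
    intro g hg
    rw [mem_powersetCard] at hg
    obtain ⟨hg1, hg2⟩ := hg
    have h4 : (({u, v, b, c} : Finset W) \ g).card = 1 := by
      rw [card_sdiff_of_subset hg1, hS, hg2]
    obtain ⟨x, hx⟩ := card_eq_one.1 h4
    have hx' : x ∈ ({u, v, b, c} : Finset W) \ g := by
      rw [hx]
      exact mem_singleton_self x
    rw [mem_sdiff] at hx'
    have hgx : g = ({u, v, b, c} : Finset W).erase x := by
      apply eq_of_subset_of_card_le
      · intro z hz
        exact mem_erase.2 ⟨fun h6 => hx'.2 (h6 ▸ hz), hg1 hz⟩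
      · rw [card_erase_of_mem hx'.1, hS, hg2]
    have hx1 := hx'.1
    simp only [mem_insert, mem_singleton] at hx1
    rcases hx1 with rfl | rfl | rfl | rfl
    · have : ({x, v, b, c} : Finset W).erase x = {v, b, c} := by
        rw [erase_insert]
        simp [huv, hbu.symm, hcu.symm]
      rw [hgx, this]
      exact hf
    · have : ({u, x, b, c} : Finset W).erase x = {u, b, c} := by
        rw [insert_comm, erase_insert]
        simp [huv.symm, hb.1.symm, hc.1.symm]
      rw [hgx, this]
      exact hf'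
    · have : ({u, v, x, c} : Finset W).erase x = {u, v, c} := by
        have e0 : ({u, v, x, c} : Finset W) = {x, u, v, c} := by
          ext z
          simp only [mem_insert, mem_singleton]
          tauto
        rw [e0, erase_insert]
        simp [hbu, hb.1, hbc]
      rw [hgx, this]
      exact e2
    · have : ({u, v, b, x} : Finset W).erase x = {u, v, b} := by
        have e0 : ({u, v, b, x} : Finset W) = {x, u, v, b} := by
          ext z
          simp only [mem_insert, mem_singleton]
          tauto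
        rw [e0, erase_insert]
        simp [hcu, hc.1, hbc.symm]
      rw [hgx, this]
      exact e1
  have h6 := card_le_card (tetra hΦ hS hsub)
  omega

theorem APEX : S_APEX := by
  intro W _ Φ u v hΦ huv he hG h5
  have hΦ2 := hΦ.two _ he
  obtain ⟨f1, f2, h12, hfc⟩ := card_eq_two.1 hΦ2
  have hf1 : f1 ∈ fc Φ {u, v} := by rw [hfc]; simp
  have hf2 : f2 ∈ fc Φ {u, v} := by rw [hfc]; simp
  rw [mem_fc] at hf1 hf2
  obtain ⟨y1, hy1u, hy1v, e1⟩ := third (hΦ.three f1 hf1.1) huv (hf1.2 (by simp)) (hf1.2 (by simp))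
  obtain ⟨y2, hy2u, hy2v, e2⟩ := third (hΦ.three f2 hf2.1) huv (hf2.2 (by simp)) (hf2.2 (by simp))
  subst e1
  subst e2
  have hperm1 : ∀ y : W, ({u, y, v} : Finset W) = {u, v, y} := fun y => by
    ext z
    simp only [mem_insert, mem_singleton]
    tauto
  have hperm2 : ∀ y : W, ({v, y, u} : Finset W) = {u, v, y} := fun y => by
    ext z
    simp only [mem_insert, mem_singleton]
    tauto
  obtain ⟨g1, vg1, g1f⟩ := other' hΦ (a := u) (b := y1) (c := v) (by rw [hperm1]; exact hf1.1)
    hy1u.symm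
  obtain ⟨h1, uh1, h1f⟩ := other' hΦ (a := v) (b := y1) (c := u) (by rw [hperm2]; exact hf1.1)
    hy1v.symm
  obtain ⟨g2, vg2, g2f⟩ := other' hΦ (a := u) (b := y2) (c := v) (by rw [hperm1]; exact hf2.1)
    hy2u.symm
  obtain ⟨h2, uh2, h2f⟩ := other' hΦ (a := v) (b := y2) (c := u) (by rw [hperm2]; exact hf2.1)
    hy2v.symm
  rw [hperm1] at g1f g2f
  rw [hperm2] at h1f h2f
  refine ⟨y1, y2, g1, g2, h1, h2, ?_, ?_, hy1u, hy1v, hy2u, hy2v, hfc, ?_, g1f, h1f, g2f, h2f,
    vg1, uh1, vg2, uh2⟩
  · -- injectivity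
    have key : ∀ f ∈ Φ, ∀ f' ∈ Φ, ¬ {u, v} ⊆ f → v ∈ f → v ∉ f' → mv u v f = mv u v f' →
        False := by
      intro f hf f' hf' hn hv hv' hm
      have hu : u ∉ f := fun h => hn (pair_sub h hv)
      unfold mv at hm
      rw [if_pos hv, if_neg hv'] at hm
      exact main hΦ huv hG h5 hf hv hu (by rw [hm]; exact hf')
    rintro f ⟨hf, hn⟩ f' ⟨hf', hn'⟩ hm
    by_cases hv : v ∈ f
    · by_cases hv' : v ∈ f'
      · have hu : u ∉ f := fun h => hn (pair_sub h hv)
        have hu' : u ∉ f' := fun h => hn' (pair_sub h hv')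
        unfold mv at hm
        rw [if_pos hv, if_pos hv'] at hm
        have h7 : f.erase v = f'.erase v := by
          rw [← erase_insert (s := f.erase v) (a := u) (fun h => hu (mem_of_mem_erase h)), hm,
            erase_insert (fun h => hu' (mem_of_mem_erase h))]
        rw [← insert_erase hv, h7, insert_erase hv']
      · exact (key f hf f' hf' hn hv hv' hm).elim
    · by_cases hv' : v ∈ f'
      · exact (key f' hf' f hf hn' hv' hv hm.symm).elim
      · unfold mv at hm
        rwa [if_neg hv, if_neg hv'] at hm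
  · rintro rfl
    exact h12 rfl
  · intro w hwu hwv
    constructor
    · rintro ⟨ha, hb⟩
      have hw := hG w hwu hwv ha hb
      have hw2 : ({u, v, w} : Finset W) ∈ fc Φ {u, v} := mem_fc.2 ⟨hw, pair_sub (by simp) (by simp)⟩
      rw [hfc, mem_insert, mem_singleton] at hw2
      rcases hw2 with h | h
      · left
        have : w ∈ ({u, v, y1} : Finset W) := by rw [← h]; simp
        simpa [hwu, hwv] using this
      · right
        have : w ∈ ({u, v, y2} : Finset W) := by rw [← h]; simp
        simpa [hwu, hwv] using this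
    · rintro (rfl | rfl)
      · exact ⟨pair_edg hf1.1 hwu.symm (by simp) (by simp),
          pair_edg hf1.1 hwv.symm (by simp) (by simp)⟩
      · exact ⟨pair_edg hf2.1 hwu.symm (by simp) (by simp),
          pair_edg hf2.1 hwv.symm (by simp) (by simp)⟩

end Pool.Agent.R106.HB
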